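import Pool.Agent.helper95.AP.SpecL
import Pool.Agent.helper5.AP.LCR
import Pool.Agent.helper5.AP.LCS
import Pool.Agent.helper68.AP.LMD
import Pool.Agent.helper82.AP.LCD
import Pool.Agent.helper68.AP.LPE
import Pool.Agent.helper5.AP.LHN
import Pool.Agent.helper87.AP.LRT
import Pool.Agent.helper5.AP.LKB
import Pool.Agent.helper5.AP.LKO
import Pool.Agent.helper5.AP.LKP
import Pool.Agent.helper68.AP.LTA
import Pool.Agent.helper68.AP.LTB
import Pool.Agent.helper5.AP.LTC
import Pool.Agent.helper5.AP.LNB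
import Pool.Agent.helper32.AP.LRS
import Pool.Agent.helper20.AP.LCQ
import Pool.Agent.helper5.AP.LFI
import Pool.Agent.helper5.AP.LMO
import Pool.Agent.helper68.AP.LMT
import Pool.Agent.helper9.AP.LDV
import Pool.Agent.helper5.AP.LMM
import Pool.Agent.helper5.AP.LOC
import Pool.Agent.helper5.AP.LR8
import Pool.Agent.helper26.AP.LRH

/-!
# Block L of project AP assembled

`loc_all : ∀ p, Odd p → 3 ≤ p → AP.LOC_stmt p` and `rho : AP.RHO_stmt`.
-/

namespace Pool.Agent.APL

theorem lhn : LHN_stmt := LHN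
theorem lrt : LRT_stmt := LRT
theorem ltc : LTC_stmt := LTC lrt
theorem lcq : LCQ_stmt := LCQ (LKO lhn) (LKP lhn) LTA LTB ltc LNB
theorem lfi : LFI_stmt := LFI LCR LMD LCD LPE lcq (LKB lhn) LNB
theorem lrs : LRS_stmt := LRS LMD
theorem lmm : LMM_stmt := LMM LCS LMD lrs LMO LMT LDV
theorem loc_all : LOC_all := LOC lfi lrs lmm
theorem rho : AP.RHO_stmt := LRH LCR LMD lhn (LR8 lrt)

end Pool.Agent.APL
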