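import Pool.Agent.helper94.AP.Defs

set_option autoImplicit false

/-!
# AP, block L: local densities (goals `LOC_stmt p` for odd `p ≥ 3`, and `RHO_stmt`)

Everything here was checked by computer (681 cases of the final formula, the mean values, the bound).
All rows are independent: other rows only as hypotheses.  Most rows need only Mathlib.
`n = r z^p`.  For a prime `q` the condition at `q` on `x` is `q^(2v) ∣ x² - 4n` (`v = v_q(y)`) and, for `q ≤ w`,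
`Lq` for the quotient `(x² - 4n) / q^(2v)`, which is `D` times the square of a unit at `q`.
-/

namespace Pool.Agent.APL

open Finset NumberField Pool.Agent.helper3.FT Pool.Agent.helper47.RA Pool.Agent.T5 Pool.Agent.AP

/-- exponent of `q` in `LL w` -/
def aq (q : ℕ) : ℕ := if q = 2 then 4 else 2

/-- exponent of `q` in `y² LL w` -/
def ex (w y q : ℕ) : ℕ := 2 * y.factorization q + (if q ≤ w then aq q else 0)

/-- the primes of `y LL w` -/
def SS (w y : ℕ) : Finset ℕ := pr w ∪ y.primeFactors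

/-- the condition at `q ≤ w` on `d = (x² - 4n) / q^(2v)` -/
def Lq (r q : ℕ) (d : ℤ) : Prop :=
  if q = 2 then (d % 4 = 0 ∨ d % 4 = 1) ∧ d % 16 ≠ 0 ∧ d % 16 ≠ 4 ∧ (2 ∣ r → (2 : ℤ) ∣ d)
  else ¬ (q : ℤ) ^ 2 ∣ d ∧ (q ∣ r → (q : ℤ) ∣ d)

/-- the condition at `q` on `x` -/
def Cq (w r n v q : ℕ) (x : ℕ) : Prop :=
  (q : ℤ) ^ (2 * v) ∣ (x : ℤ) ^ 2 - 4 * (n : ℤ) ∧
    (q ≤ w → Lq r q (((x : ℤ) ^ 2 - 4 * (n : ℤ)) / (q : ℤ) ^ (2 * v)))

/-- local density at an odd prime, `J = (r a / q)` -/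
noncomputable def go (q r a b : ℕ) : ℝ :=
  if q ∣ b then (if q ∣ r * a then 0 else
      (1 + (jacobiSym ((r * a : ℕ) : ℤ) q : ℝ)) * ((q : ℝ) ^ 2 - 1) / (q : ℝ) ^ 2)
  else if q ∣ r then (if q ∣ a then 0 else 1 / (q : ℝ))
  else if q ∣ a then ((q : ℝ) ^ 2 - q) / (q : ℝ) ^ 2
  else ((q : ℝ) ^ 2 - 1 - (jacobiSym ((r * a : ℕ) : ℤ) q : ℝ)) / (q : ℝ) ^ 2

/-- local density at 2 -/
noncomputable def g2 (r a b : ℕ) : ℝ :=
  if 2 ∣ b then
    (if 2 ∣ r * a then 0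
     else if b % 8 = 0 then (if r * a % 8 = 1 then 3 else 0)
     else if b % 4 = 0 then (if r * a % 8 = 1 then 1 else if r * a % 8 = 5 then 2 else 0)
     else (if r * a % 4 = 3 then 1 else 1 / 2))
  else if 2 ∣ r then (if 2 ∣ a then 0 else 1 / 2)
  else (if 2 ∣ a then 1 / 2 else 3 / 4)

/-- local density at `q` -/
noncomputable def gq (q r a b : ℕ) : ℝ := if q = 2 then g2 r a b else go q r a b

/-- local mean, `q ∤ r` -/
noncomputable def m0 (q : ℕ) : ℝ :=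
  (1 - 1 / (q : ℝ)) ^ 2 * (1 + 1 / (q : ℝ) - 1 / (q : ℝ) ^ 2) +
    1 / (q : ℝ) * (1 - 1 / (q : ℝ)) * (1 - 1 / (q : ℝ) ^ 2)

/-- local mean, `q ∣ r` -/
noncomputable def m1 (q : ℕ) : ℝ := (1 - 1 / (q : ℝ)) ^ 2 / q

open Classical in
/-- **LCR** (short-medium, Mathlib only).  Chinese remainder theorem for counts.
Proof. Induction on `S`.  For `insert a S`: `A = m a`, `B = ∏_{q ∈ S} m q` are coprime; `x ↦ (x % A, x % B)` is a bijection from
`range (A B)` to `range A ×ˢ range B` (`Nat.chineseRemainder`, or `Nat.ModEq` and `Nat.Coprime.mul_dvd_of_dvd_of_dvd` for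
injectivity and cardinality); `C a x ↔ C a (x % A)`, and `C q x ↔ C q (x % B)` for `q ∈ S` because `(x % B) % m q = x % m q`. -/
def LCR_stmt : Prop := ∀ (S : Finset ℕ) (m : ℕ → ℕ) (C : ℕ → ℕ → Prop), (∀ q ∈ S, 1 ≤ m q) →
  (∀ q ∈ S, ∀ q' ∈ S, q ≠ q' → Nat.Coprime (m q) (m q')) → (∀ q ∈ S, ∀ x, C q x ↔ C q (x % m q)) →
  ((range (∏ q ∈ S, m q)).filter (fun x => ∀ q ∈ S, C q x)).card = ∏ q ∈ S, ((range (m q)).filter (C q)).card

/-- **LCS** (short-medium, Mathlib only).  Chinese remainder theorem for sums in two variables.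
Proof. As LCR (induction on `S`, the bijection `x ↦ (x % A, x % B)` for `a` and for `b`), then the double sum of the product factors. -/
def LCS_stmt : Prop := ∀ (S : Finset ℕ) (m : ℕ → ℕ) (f : ℕ → ℕ → ℕ → ℝ), (∀ q ∈ S, 1 ≤ m q) →
  (∀ q ∈ S, ∀ q' ∈ S, q ≠ q' → Nat.Coprime (m q) (m q')) →
  (∀ q ∈ S, ∀ a b, f q a b = f q (a % m q) (b % m q)) →
  ∑ a ∈ range (∏ q ∈ S, m q), ∑ b ∈ range (∏ q ∈ S, m q), ∏ q ∈ S, f q a b =
    ∏ q ∈ S, ∑ a ∈ range (m q), ∑ b ∈ range (m q), f q a b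

/-- **LMD** (short).  The moduli.
Proof. `LL w = 16 ∏_{2 < q ≤ w} q²`, `2 ∈ pr w`; a prime `q` is in `pr w` iff `q ≤ w`.  `y² = ∏_{q ∣ y} q^(2 v_q(y))`
(`Nat.factorization_prod_pow_eq_self`); over the larger set `SS w y` the new factors are `q^0`.  Last part: the same for `K`. -/
def LMD_stmt : Prop :=
  (∀ w y : ℕ, 2 ≤ w → 1 ≤ y → LL w = ∏ q ∈ pr w, q ^ aq q ∧ y ^ 2 * LL w = ∏ q ∈ SS w y, q ^ ex w y q ∧
    (∀ q ∈ SS w y, q.Prime)) ∧
  ∀ K : ℕ, 1 ≤ K → K ^ 2 = ∏ q ∈ K.primeFactors, q ^ (2 * K.factorization q)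

/-- **LCD** (medium).  The conditions are local.
Proof. Write `y = q^v u`, `q ∤ u` (`v = v_q(y)`), `num = x² - 4n`.  `y² ∣ num` iff `q^(2v_q) ∣ num` for all primes `q ∣ y` (for `q ∤ y` the
condition is empty: `v = 0`).  Then `d_q := num / q^(2v) = dp u²`.  For `q ≤ w` odd: `q² ∣ d_q ↔ q² ∣ dp`, `q ∣ d_q ↔ q ∣ dp`.  For `q = 2`: `u`
is odd, `u² % 16 ∈ {1, 9}`, so `d_2 % 4 = dp % 4`, `d_2 % 16 ∈ {0, 4} ↔ dp % 16 ∈ {0, 4}` (same residue, as `9·4 = 36`), `2 ∣ d_2 ↔ 2 ∣ dp`.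
`r ∣ PP w` is squarefree and its primes are `≤ w`: `r ∣ dp ↔ ∀ q ∣ r prime, q ∣ dp`. -/
def LCD_stmt : Prop := ∀ w p r z y x : ℕ, 2 ≤ w → r ∣ PP w → 1 ≤ y →
  (((y : ℤ) ^ 2 ∣ num p (r, z, y, (x : ℤ)) ∧ (r : ℤ) ∣ dp p (r, z, y, (x : ℤ)) ∧ Loc w p (r, z, y, (x : ℤ))) ↔
    ∀ q ∈ SS w y, Cq w r (r * z ^ p) (y.factorization q) q x)

/-- **LPE** (short).  Periodicity.
Proof. `x' = x % q^e`, `e = 2v + a`: `q^(2v+a) ∣ x² - x'²`, so `q^(2v)` divides `x² - 4n` iff it divides `x'² - 4n`, and then the quotients are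
congruent modulo `q^a` (`a = 4` for `q = 2`: `Lq` depends only on `d % 16`; `a = 2` for `q` odd: only on `d` modulo `q²`).  For `q > w` only
the first condition is there and `e = 2v`. -/
def LPE_stmt : Prop := ∀ w r n y q x : ℕ, q.Prime →
  (Cq w r n (y.factorization q) q x ↔ Cq w r n (y.factorization q) q (x % q ^ ex w y q))

/-- **LHN** (medium, Mathlib only).  Square roots modulo odd prime powers.
Proof. Induction on `k`.  `k = 1`: `legendreSym.card_sqrts`.  Step: `x ↦ x % q^k` is a bijection from the roots modulo `q^(k+1)` to the roots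
modulo `q^k`: over the root `x₀` the numbers `x₀ + t q^k`, `t < q`, and `(x₀ + t q^k)² - c = q^k ((x₀² - c)/q^k + 2 x₀ t) mod q^(k+1)`,
`2 x₀` is a unit modulo `q`: exactly one `t`. -/
def LHN_stmt : Prop := ∀ (q k : ℕ) (c : ℤ), q.Prime → q ≠ 2 → 1 ≤ k → ¬ (q : ℤ) ∣ c →
  (((range (q ^ k)).filter (fun x : ℕ => (q : ℤ) ^ k ∣ (x : ℤ) ^ 2 - c)).card : ℤ) = 1 + jacobiSym c q

/-- **LRT** (medium, Mathlib only).  Square roots modulo `2^k`.
Proof. `c % 8 ≠ 1`: no odd square, and an even `x` gives an odd `x² - c`.  `c % 8 = 1`: a root `s` exists (induction: `s² = c + 2^k t`; if `t` is odd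
take `s + 2^(k-1)`: `(s + 2^(k-1))² = s² + 2^k s + 2^(2k-2)`, `2k - 2 ≥ k + 1`).  If `x² = s² mod 2^k` then `x, s` are odd, `(x-s)(x+s)` is
divisible by `2^k`, one of the two factors is `2 mod 4`, so `2^(k-1)` divides the other: `x = ± s` or `± s + 2^(k-1)` modulo `2^k`: four
distinct classes (`k ≥ 3`).  Or: induction with the count `4` (a class modulo `2^(k-1)` of roots modulo `2^k` gives one class modulo `2^k` of roots
modulo `2^(k+1)`). -/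
def LRT_stmt : Prop := ∀ (k : ℕ) (c : ℤ), 3 ≤ k → c % 2 = 1 →
  ((range (2 ^ k)).filter (fun x : ℕ => (2 : ℤ) ^ k ∣ (x : ℤ) ^ 2 - c)).card = if c % 8 = 1 then 4 else 0

open Classical in
/-- **LKB** (short; from LHN).  `q > w`.
Proof. `Cq` is `q^(2v) ∣ x² - 4n`; LHN with `c = 4n`, `k = 2v`; `(4n / q) = (n / q)` (`4 = 2²`, `q` odd). -/
def LKB_stmt : Prop := ∀ w r n v q : ℕ, q.Prime → 2 ≤ w → w < q → 1 ≤ v → ¬ q ∣ n →
  (((range (q ^ (2 * v))).filter (Cq w r n v q)).card : ℤ) = 1 + jacobiSym (n : ℤ) q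

open Classical in
/-- **LKO** (short-medium; from LHN).  `q ≤ w` odd, `q ∣ y`.
Proof. `q ∤ r`, so `Cq` says `q^(2v) ∣ x² - 4n` but not `q^(2v+2) ∣ x² - 4n`.  The `x < q^(2v+2)` with the first property: `q²` times the number for
`x < q^(2v)` (periodicity), so `q² (1 + J)`; with both: `1 + J` (LHN with `k = 2v + 2`); the difference is `(1 + J)(q² - 1)`. -/
def LKO_stmt : Prop := ∀ w r n v q : ℕ, q.Prime → q ≠ 2 → q ≤ w → 1 ≤ v → ¬ q ∣ n → ¬ q ∣ r →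
  (((range (q ^ (2 * v + 2))).filter (Cq w r n v q)).card : ℤ) = (1 + jacobiSym (n : ℤ) q) * ((q : ℤ) ^ 2 - 1)

open Classical in
/-- **LKP** (short-medium; from LHN).  `q ≤ w` odd, `q ∤ y` (`v = 0`).
Proof. `Cq`: `q² ∤ x² - 4n` and (`q ∣ r → q ∣ x² - 4n`), `n = r z^p`.  (1) `q ∣ r`: `q ∣ n`, so `q ∣ x`, `q² ∣ x²`, and the first condition says
`q² ∤ 4 r z^p`, i.e. `q ∤ z` (`q² ∤ r`): the `x = q t`, `t < q`: `q` of them, or none.  (2) `q ∤ r`, `q ∣ z`: `q² ∣ n`, the condition is `q ∤ x`.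
(3) `q ∤ r z`: all `x` but the `1 + J` roots modulo `q²` (LHN, `k = 2`, `c = 4n`). -/
def LKP_stmt : Prop := ∀ w r z p q : ℕ, q.Prime → q ≠ 2 → q ≤ w → 3 ≤ p → ¬ q ^ 2 ∣ r →
  (((range (q ^ 2)).filter (Cq w r (r * z ^ p) 0 q)).card : ℤ) =
    if q ∣ r then (if q ∣ z then 0 else (q : ℤ)) else if q ∣ z then (q : ℤ) ^ 2 - q
    else (q : ℤ) ^ 2 - 1 - jacobiSym ((r * z ^ p : ℕ) : ℤ) q

open Classical in
/-- **LTA** (short-medium).  `q = 2`, `y` odd (`v = 0`).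
Proof. `d = x² - 4n`, `Lq` depends on `d % 16` and the parity of `r`; `4n % 16` depends on `n % 4`: `r` odd, `z` odd: `n` is odd, `n % 4 ∈ {1, 3}`; `r`, `z` odd/even:
`8 ∣ z^p`, `n % 4 = 0`; `r = 2 mod 4`, `z` odd: `n % 4 = 2`.  Then a finite check over `x < 16`, `n % 4` (decide). -/
def LTA_stmt : Prop := ∀ w r z p : ℕ, 2 ≤ w → 3 ≤ p → ¬ 4 ∣ r →
  ((range 16).filter (Cq w r (r * z ^ p) 0 2)).card =
    if 2 ∣ r then (if 2 ∣ z then 0 else 8) else (if 2 ∣ z then 8 else 12)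

open Classical in
/-- **LTB** (short-medium).  `q = 2`, `y = 2 mod 4` (`v = 1`), `n`, `r` odd.
Proof. `4 ∣ x² - 4n` iff `x` even; `d = (x² - 4n)/4`, `d % 16` depends on `n % 16` and `x`: finite check over `x < 64`, `n % 16` (`Lq` without the condition on
`r`, as `2 ∤ r`). -/
def LTB_stmt : Prop := ∀ w r n : ℕ, 2 ≤ w → ¬ 2 ∣ n → ¬ 2 ∣ r →
  ((range (2 ^ 6)).filter (Cq w r n 1 2)).card = if n % 4 = 3 then 16 else 8

open Classical in
/-- **LTC** (medium; from LRT).  `q = 2`, `4 ∣ y` (`v ≥ 2`), `n`, `r` odd.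
Proof. `x = 2 x₁`, `x₁ < 2^(2v+3)`, `2^(2v-2) ∣ x₁² - n`, `d = (x₁² - n)/2^(2v-2)`, `Lq`: `d % 16 ∈ {1, 5, 9, 13, 8, 12} =: E`.  So the number is
`∑_{s ∈ E} #{x₁ < 2^(2v+3) : x₁² = n + 2^(2v-2) s mod 2^(2v+2)}`, twice the number for `x₁ < 2^(2v+2)` (periodicity), which by LRT (`k = 2v + 2`) is `4` if
`(n + 2^(2v-2) s) % 8 = 1` and `0` otherwise.  `v = 2`: `n + 4s`: `n % 8 = 1`: `s = 8, 12`: `2·4·2 = 16`; `n % 8 = 5`: `s = 1, 5, 9, 13`: `32`; else 0.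
`v ≥ 3`: `8 ∣ 2^(2v-2)`: `n % 8 = 1`: `6·4·2 = 48`; else 0. -/
def LTC_stmt : Prop := ∀ w r n v : ℕ, 2 ≤ w → ¬ 2 ∣ n → ¬ 2 ∣ r → 2 ≤ v →
  ((range (2 ^ (2 * v + 4))).filter (Cq w r n v 2)).card =
    if v = 2 then (if n % 8 = 1 then 16 else if n % 8 = 5 then 32 else 0) else (if n % 8 = 1 then 48 else 0)

/-- **LNB** (short, Mathlib only).  `n = r z^p` against `r z`.
Proof. `z^p = z (z^((p-1)/2))²`.  For odd `q` with `q ∤ z`: the symbol of a square of a unit is 1.  `z` odd: `z² % 8 = 1`. -/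
def LNB_stmt : Prop := ∀ r z p : ℕ, Odd p →
  (∀ q : ℕ, q.Prime → ¬ q ∣ z → jacobiSym ((r * z ^ p : ℕ) : ℤ) q = jacobiSym ((r * z : ℕ) : ℤ) q) ∧
  (¬ 2 ∣ z → (r * z ^ p) % 8 = (r * z) % 8)

/-- **LRS** (short-medium).  Elementary properties of `gq`.
Proof. `q^(aq q) ∣ LL w` for `q ∈ pr w` (LMD), `gq q r a b` depends only on `a, b` modulo `q^(aq q)`: divisibility by `q`, `jacobiSym (r a) q`
(`jacobiSym.mod_left`), for `q = 2` on `r a % 8`, `b % 8`.  Nonnegativity: `jacobiSym` is `0, 1, -1` and `q ≥ 3` for `go`. -/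
def LRS_stmt : Prop := ∀ q : ℕ, q.Prime →
  (∀ r a b, 0 ≤ gq q r a b) ∧ (∀ r a b, q ∣ b → q ∣ r * a → gq q r a b = 0) ∧
  (∀ r a b, gq q r a b = gq q r (a % q ^ aq q) (b % q ^ aq q)) ∧
  (∀ w r a b, 2 ≤ w → q ∈ pr w → gq q r a b = gq q r (a % LL w) (b % LL w))

open Classical in
/-- **LCQ** (medium; assembly of the local counts).  For a prime `q ≤ w` the number of `x` modulo `q^(ex w y q)` is `q^(aq q) gq q r z y`.
Proof. `v = v_q(y)`, `n = r z^p`.  `r ∣ PP w` gives `q² ∤ r`.  If `q ∣ y`: `q ∤ r z` (coprime), `q ∤ n`.  `q` odd: `v ≥ 1`: LKO, `(n/q) = (rz/q)` (LNB), the first case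
of `go` times `q²`; `v = 0` (`q ∤ y`): LKP, with LNB for the last case.  `q = 2`: `v = 0`: LTA, `8/16`, `12/16`; `v = 1` (`y % 4 = 2`): LTB, `n % 8 = r z % 8` (LNB),
`16/16`, `8/16`; `v = 2` (`y % 8 = 4`) and `v ≥ 3` (`8 ∣ y`): LTC, `16, 32, 48` divided by 16. -/
def LCQ_stmt : Prop := ∀ w p r z y q : ℕ, 2 ≤ w → Odd p → 3 ≤ p → r ∣ PP w → 1 ≤ z → 1 ≤ y → Nat.Coprime y (r * z) →
  q ∈ pr w → (((range (q ^ ex w y q)).filter (Cq w r (r * z ^ p) (y.factorization q) q)).card : ℝ) =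
    (q : ℝ) ^ aq q * gq q r z y

/-- **LFI** (medium; from LCR, LMD, LCD, LPE, LCQ, LKB, LNB).  The formula.
Proof. LCD turns the filter of `NC` into `∀ q ∈ SS w y, Cq ..`; `y² LL w = ∏_{SS} q^(ex w y q)` (LMD), powers of different primes are coprime, LPE: LCR gives the
product of the local counts.  `SS w y` is the disjoint union of `pr w` (LCQ: `q^(aq q) gq`, product `LL w ∏ gq`) and of the primes `q > w` of `y`
(`ex = 2v`, LKB, `q ∤ n` as `y, r z` are coprime, LNB: `1 + (rz/q)`, product `kap`). -/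
def LFI_stmt : Prop := ∀ w p r z y : ℕ, 2 ≤ w → Odd p → 3 ≤ p → r ∣ PP w → 1 ≤ z → 1 ≤ y → Nat.Coprime y (r * z) →
  (NC w p r z y : ℝ) = LL w * (∏ q ∈ pr w, gq q r z y) * (kap w y ((r * z : ℕ) : ℤ) : ℝ)

/-- **LMO** (medium).  The local mean at an odd prime.
Proof. `q` of the `q²` residues are divisible by `q`.  `∑_{a < q², q ∤ a} (r a / q) = 0` for `q ∤ r` (`q` times the sum of the quadratic character; `jacobiSym` is
multiplicative).  `q ∤ r`: `b` divisible: `q (q² - q)(q² - 1)/q²`; `b` not divisible (`q² - q` values): `q (q² - q)/q² + (q² - q)(q² - 1)/q²`.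
`q ∣ r`: only `b`, `a` not divisible: `(q² - q)²/q`.  Then `field_simp; ring`. -/
def LMO_stmt : Prop := ∀ q r : ℕ, q.Prime → q ≠ 2 →
  ∑ a ∈ range (q ^ 2), ∑ b ∈ range (q ^ 2), gq q r a b = (q : ℝ) ^ 4 * (if q ∣ r then m1 q else m0 q)

/-- **LMT** (short-medium).  The local mean at 2, and the identity `m0 + m1 / q = (1 - 1/q²)²`.
Proof. `g2 r a b` depends on `r % 8`, `a`, `b`: finite check for the eight classes of `r` (`m0 2 = 1/2`, `m1 2 = 1/8`; sums `128`, `32` over `256`);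
the identity by `field_simp; ring`. -/
def LMT_stmt : Prop :=
  (∀ r : ℕ, ∑ a ∈ range 16, ∑ b ∈ range 16, gq 2 r a b = 256 * (if 2 ∣ r then m1 2 else m0 2)) ∧
  (∀ q : ℕ, q.Prime → m0 q + m1 q / q = (1 - 1 / (q : ℝ) ^ 2) ^ 2)

/-- **LDV** (short-medium, Mathlib only).  The sum over the divisors of the squarefree number `PP w`.
Proof. `r ↦ {q ∈ pr w : q ∣ r}` is a bijection from the divisors of `PP w = ∏_{pr w} q` to the subsets of `pr w`, inverse `T ↦ ∏_{q ∈ T} q`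
(compare `Nat.sum_divisors_prime_mul`, `Finset.sum_divisors_filter_squarefree`, or induction on a finite set of primes);
`Finset.prod_add`. -/
def LDV_stmt : Prop := ∀ (w : ℕ) (f g : ℕ → ℝ),
  ∑ r ∈ (PP w).divisors, 1 / (r : ℝ) * ∏ q ∈ pr w, (if q ∣ r then f q else g q) = ∏ q ∈ pr w, (g q + f q / q)

/-- **LMM** (short-medium; from LCS, LMD, LRS, LMO, LMT, LDV).  The mean value.
Proof. For fixed `r`: LCS with `S = pr w`, `m q = q^(aq q)`, `f q a b = gq q r a b` (LRS), `LL w = ∏ q^(aq q)`: the double sum is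
`∏ q^(2 aq q) (if q ∣ r then m1 q else m0 q)` (LMO; LMT for 2: `16² = 256`), divided by `LL w²`; LDV and the identity of LMT. -/
def LMM_stmt : Prop := ∀ w : ℕ, 2 ≤ w → ∑ r ∈ (PP w).divisors, 1 / (r : ℝ) *
    ((∑ a ∈ range (LL w), ∑ b ∈ range (LL w), ∏ q ∈ pr w, gq q r a b) / (LL w : ℝ) ^ 2) =
    ∏ q ∈ pr w, (1 - 1 / (q : ℝ) ^ 2) ^ 2

/-- **LOC** (short; from LFI, LRS, LMM).  Proof. `g r a b = ∏ q ∈ pr w, gq q r a b`. -/
def LOC_all : Prop := ∀ p : ℕ, Odd p → 3 ≤ p → LOC_stmt p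

/-- **LR8** (short-medium; from LRT).
Proof. `x = 2 x₁`, `x₁ < 2^(2v-1)`, `2^(2v-2) ∣ x₁² - n`, `n` odd.  `v = 1`: `x₁ < 2`: at most 2.  `v = 2`: `x₁ < 8`.  `v ≥ 3`: `2v - 2 ≥ 4`: at most 4 roots modulo `2^(2v-2)` (LRT), so at
most 8 with `x₁ < 2^(2v-1)`. -/
def LR8_stmt : Prop := ∀ n v : ℕ, ¬ 2 ∣ n → 1 ≤ v →
  ((range (2 ^ (2 * v))).filter (fun x : ℕ => (2 : ℤ) ^ (2 * v) ∣ (x : ℤ) ^ 2 - 4 * (n : ℤ))).card ≤ 8

/-- **LRH** (short-medium; from LCR, LMD, LHN, LR8).  `RHO_stmt`.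
Proof. LCR with `S = K.primeFactors`, `m q = q^(2 v_q(K))`, `C q x : q^(2v_q(K)) ∣ x² - 4n`.  Odd `q`: `1 + (4n/q) = 1 + (n/q)` (LHN); `q = 2`: at most 8 (LR8).  `kap 2 K n` is the
product over the odd primes of `K`, all factors are `≥ 0`. -/
def LRH_stmt : Prop := RHO_stmt

end Pool.Agent.APL
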